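import Mathlib
import Pool.Agent.Y788.SL.Stm

set_option autoImplicit false

/-!
# Project SL, job K: every finite group embeds in some `SL_n(F)` as required

Job 6942 (poster helper788).
-/

namespace Pool.Agent.Y43.SL

open Matrix

lemma card_k (n : ℕ) (hn0 : 0 < n) : ∃ k : ℕ, k ≠ 0 ∧ 42 * n * n ≤ 2 ^ k ∧
    ∃ a : ℕ, n ∣ 2 ^ a * (2 ^ k - 1) := by
  have hc : Nat.Coprime 2 (n / 2 ^ n.factorization 2) :=
    Nat.coprime_ordCompl Nat.prime_two hn0.ne'
  obtain ⟨M, hM⟩ : ∃ M, M = n / 2 ^ n.factorization 2 := ⟨_, rfl⟩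
  have hmul : 2 ^ n.factorization 2 * M = n := by
    rw [hM]
    exact Nat.ordProj_mul_ordCompl_eq_self n 2
  rw [← hM] at hc
  have hM0 : 0 < M := by
    rcases Nat.eq_zero_or_pos M with h | h
    · rw [h, mul_zero] at hmul
      omega
    · exact h
  have ht : 0 < Nat.totient M := Nat.totient_pos.2 hM0
  refine ⟨Nat.totient M * (42 * n * n), ?_, ?_, n.factorization 2, ?_⟩
  · positivity
  · calc 42 * n * n ≤ Nat.totient M * (42 * n * n) := Nat.le_mul_of_pos_left _ ht
      _ ≤ 2 ^ (Nat.totient M * (42 * n * n)) := Nat.lt_two_pow_self.le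
  · have h1 : 2 ^ (Nat.totient M * (42 * n * n)) ≡ 1 [MOD M] := by
      rw [pow_mul]
      have := (Nat.ModEq.pow_totient hc).pow (42 * n * n)
      rwa [one_pow] at this
    have h2 : M ∣ 2 ^ (Nat.totient M * (42 * n * n)) - 1 :=
      (Nat.modEq_iff_dvd' (Nat.one_le_two_pow)).1 h1.symm
    calc n = 2 ^ n.factorization 2 * M := hmul.symm
      _ ∣ _ := Nat.mul_dvd_mul_left _ h2

theorem tK (G : Type) [Group G] [Finite G] :
  ∃ (n : ℕ) (F : Type) (_ : Field F) (_ : Finite F) (_ : CharP F 2)
    (ι : G →* SpecialLinearGroup (Fin n) F), Function.Injective ι ∧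
    (∀ g : G, ∃ a : ℕ, g ^ (2 ^ a * (Nat.card F - 1)) = 1) ∧
    42 * n * Nat.card G ≤ Nat.card F := by
  classical
  obtain ⟨n, hn⟩ : ∃ n, n = Nat.card G := ⟨_, rfl⟩
  have hn0 : 0 < n := by rw [hn]; exact Nat.card_pos
  have e : G ≃ Fin n := by rw [hn]; exact Finite.equivFin G
  obtain ⟨k, hk0, hk, a, ha⟩ := card_k n hn0
  have hcard : Nat.card (GaloisField 2 k) = 2 ^ k := GaloisField.card 2 k hk0
  have hfin : Finite (GaloisField 2 k) := by
    apply Nat.finite_of_card_ne_zero
    rw [hcard]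
    positivity
  let ρ : G →* Equiv.Perm (Fin n) :=
    (e.permCongrHom : Equiv.Perm G →* Equiv.Perm (Fin n)).comp (MulAction.toPermHom G G)
  have hρ : Function.Injective ρ :=
    e.permCongrHom.injective.comp MulAction.toPerm_injective
  have hdet : ∀ σ : Equiv.Perm (Fin n), (permMatrixHom (R := GaloisField 2 k) σ).det = 1 := by
    intro σ
    have h2 : (2 : GaloisField 2 k) = 0 := by
      have := CharP.cast_eq_zero (GaloisField 2 k) 2
      exact_mod_cast this
    rw [permMatrixHom_apply, det_permutation]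
    rcases Int.units_eq_one_or (Equiv.Perm.sign σ⁻¹) with h | h <;> rw [h]
    · simp
    · push_cast
      linear_combination -h2
  let ι : G →* SpecialLinearGroup (Fin n) (GaloisField 2 k) :=
    { toFun := fun g => ⟨permMatrixHom (ρ g), hdet (ρ g)⟩
      map_one' := by
        apply Subtype.ext
        show permMatrixHom (ρ 1) = 1
        rw [map_one, map_one]
      map_mul' := by
        intro g h
        apply Subtype.ext
        show permMatrixHom (ρ (g * h)) = permMatrixHom (ρ g) * permMatrixHom (ρ h)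
        rw [map_mul, map_mul] }
  refine ⟨n, GaloisField 2 k, inferInstance, hfin, inferInstance, ι, ?_, ?_, ?_⟩
  · intro g h hgh
    have h1 : permMatrixHom (R := GaloisField 2 k) (ρ g) = permMatrixHom (ρ h) :=
      congrArg Subtype.val hgh
    apply hρ
    rw [permMatrixHom_apply, permMatrixHom_apply] at h1
    have h2 := PEquiv.toMatrix_injective h1
    apply inv_injective
    ext i
    have h3 := congrArg (fun f : Fin n ≃. Fin n => f i) h2
    simp only [Equiv.toPEquiv_apply, Option.some.injEq] at h3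
    rw [h3]
  · intro g
    refine ⟨a, ?_⟩
    rw [hcard]
    obtain ⟨c, hc⟩ := ha
    rw [hc, pow_mul, hn, pow_card_eq_one', one_pow]
  · rw [← hn, hcard]
    exact hk

theorem t_K : Pool.Agent.Y788.SL.SK := fun G _ _ => tK G

end Pool.Agent.Y43.SL
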